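import Pool.Agent.Lib.MP_8c9cbf_an.Tr.TDefs
import Pool.Agent.Lib.MP_8c9cbf_an.Par

/-! Rational functionals as lists of integer coefficients with denominator `r!`. -/

namespace Pool.Agent.MP8c9cbf

open Finset Filter Topology

namespace TreeCon

private theorem TD_int (ρ : ℚ) (r : ℕ) (h : ρ.den ≤ r) :
    ((ρ.num * ((r.factorial / ρ.den : ℕ) : ℤ) : ℤ) : ℝ) = (ρ : ℝ) * (r.factorial : ℝ) := by
  have hd : ρ.den ∣ r.factorial := Nat.dvd_factorial ρ.den_pos h
  obtain ⟨e, he⟩ := hd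
  have hpos : (0 : ℝ) < (ρ.den : ℝ) := by exact_mod_cast ρ.den_pos
  rw [he, Nat.mul_div_cancel_left e ρ.den_pos]
  have h2 : (ρ : ℝ) = (ρ.num : ℝ) / (ρ.den : ℝ) := by
    exact_mod_cast (Rat.num_div_den ρ).symm
  rw [h2]
  push_cast
  field_simp

theorem exists_list (b : TT × ℕ →₀ ℝ) (hb : ∀ q, ∃ r : ℚ, (r : ℝ) = b q)
    (hb1 : ∑ q ∈ b.support, |b q| ≤ 1) : ∃ R0 : ℕ, ∀ r ≥ R0, ∃ l : List (TT × ℕ × ℤ),
      (∀ q ∈ l, rkT q.1 < r ∧ q.2.1 ≤ r ∧ (wtT q.1 = none → q.1.1 ≤ r)) ∧ l.length ≤ r ∧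
      (l.map (fun q => |q.2.2|)).sum ≤ (r.factorial : ℤ) ∧
      (l.map (fun q => Finsupp.single (q.1, q.2.1)
        ((q.2.2 : ℝ) / (r.factorial : ℝ)))).sum = b := by
  choose ρ hρ using hb
  refine ⟨∑ q ∈ b.support, (rkT q.1 + 1 + q.2 + q.1.1 + (ρ q).den), fun r hr => ?_⟩
  have hq : ∀ q ∈ b.support, rkT q.1 + 1 + q.2 + q.1.1 + (ρ q).den ≤ r := by
    intro q hq
    exact (Finset.single_le_sum (f := fun q : TT × ℕ => rkT q.1 + 1 + q.2 + q.1.1 + (ρ q).den)
      (fun _ _ => Nat.zero_le _) hq).trans hr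
  have hcard : b.support.card ≤ r := by
    have h1 : b.support.card • 1 ≤ ∑ q ∈ b.support, (rkT q.1 + 1 + q.2 + q.1.1 + (ρ q).den) :=
      Finset.card_nsmul_le_sum _ _ _ (fun q _ => by omega)
    have h2 : b.support.card • 1 = b.support.card := by simp
    omega
  set c : TT × ℕ → ℤ := fun q => (ρ q).num * ((r.factorial / (ρ q).den : ℕ) : ℤ) with hc
  have hcq : ∀ q ∈ b.support, (c q : ℝ) = b q * (r.factorial : ℝ) := by
    intro q hq'
    have := hq q hq'
    rw [hc, ← hρ q]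
    exact TD_int (ρ q) r (by omega)
  have hf : (0 : ℝ) < (r.factorial : ℝ) := by exact_mod_cast r.factorial_pos
  refine ⟨b.support.toList.map (fun q => (q.1, q.2, c q)), ?_, ?_, ?_, ?_⟩
  · intro q hql
    obtain ⟨q', hq', rfl⟩ := List.mem_map.mp hql
    have := hq q' (Finset.mem_toList.mp hq')
    refine ⟨?_, ?_, fun _ => ?_⟩
    · show rkT q'.1 < r
      omega
    · show q'.2 ≤ r
      omega
    · show q'.1.1 ≤ r
      omega
  · rw [List.length_map, Finset.length_toList]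
    exact hcard
  · rw [List.map_map]
    have h1 : (b.support.toList.map ((fun q : TT × ℕ × ℤ => |q.2.2|) ∘
        fun q : TT × ℕ => (q.1, q.2, c q))).sum = ∑ q ∈ b.support, |c q| :=
      Finset.sum_map_toList b.support (fun q => |c q|)
    rw [h1]
    have h2 : ((∑ q ∈ b.support, |c q| : ℤ) : ℝ) ≤ (r.factorial : ℝ) := by
      push_cast
      calc ∑ q ∈ b.support, |(c q : ℝ)| = ∑ q ∈ b.support, |b q| * (r.factorial : ℝ) := by
            apply Finset.sum_congr rfl
            intro q hq'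
            rw [hcq q hq', abs_mul, abs_of_pos hf]
        _ = (∑ q ∈ b.support, |b q|) * (r.factorial : ℝ) := by rw [Finset.sum_mul]
        _ ≤ 1 * (r.factorial : ℝ) := mul_le_mul_of_nonneg_right hb1 hf.le
        _ = _ := one_mul _
    exact_mod_cast h2
  · rw [List.map_map]
    have h1 : (b.support.toList.map ((fun q : TT × ℕ × ℤ => Finsupp.single (q.1, q.2.1)
        ((q.2.2 : ℝ) / (r.factorial : ℝ))) ∘ fun q : TT × ℕ => (q.1, q.2, c q))).sum =
        ∑ q ∈ b.support, Finsupp.single q ((c q : ℝ) / (r.factorial : ℝ)) :=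
      Finset.sum_map_toList b.support
        (fun q => Finsupp.single q ((c q : ℝ) / (r.factorial : ℝ)))
    rw [h1]
    have h2 : ∑ q ∈ b.support, Finsupp.single q ((c q : ℝ) / (r.factorial : ℝ)) =
        ∑ q ∈ b.support, Finsupp.single q (b q) := by
      apply Finset.sum_congr rfl
      intro q hq'
      rw [hcq q hq', mul_div_assoc, div_self hf.ne', mul_one]
    rw [h2]
    exact Finsupp.sum_single b

end TreeCon

end Pool.Agent.MP8c9cbf
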