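import Pool.Agent.Lib.MP_8c9cbf_an.Defs

/-!
# The tree of top nodes: definitions

Raw nodes are natural numbers, decoded by the bijection `dec` into
(rank, weight, age, predecessor, coefficients).  Base nodes may have any age, so that there are
infinitely many of them in every rank; a base node may occur in the list of a node of rank `r` only
if it is at most `r` as a natural number.
-/

namespace Pool.Agent.MP8c9cbf

open Finset Filter Topology

namespace TreeCon

/-- fields of a raw node -/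
abbrev Fld := ℕ × Option ℕ × ℕ × Option ℕ × List (ℕ × ℕ × ℤ)

noncomputable def dec : ℕ ≃ Fld := (Denumerable.eqv Fld).symm

noncomputable def rkR (n : ℕ) : ℕ := (dec n).1
noncomputable def wtR (n : ℕ) : Option ℕ := (dec n).2.1
noncomputable def agR (n : ℕ) : ℕ := (dec n).2.2.1
noncomputable def prR (n : ℕ) : Option ℕ := (dec n).2.2.2.1
noncomputable def lsR (n : ℕ) : List (ℕ × ℕ × ℤ) := (dec n).2.2.2.2

/-- the injective code of a raw node, larger than its rank -/
noncomputable def cdR (n : ℕ) : ℕ := Nat.pair (rkR n + 1) n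

/-- the admissible raw nodes -/
inductive Valid : ℕ → Prop
  | base (n : ℕ) (hw : wtR n = none) (hp : prR n = none) (hl : lsR n = []) : Valid n
  | nd (n i : ℕ) (hw : wtR n = some i) (hi : i ≤ rkR n)
      (ha1 : 1 ≤ agR n) (ha2 : agR n ≤ nn i)
      (hp : ∀ ξ, prR n = some ξ → Valid ξ)
      (hp' : ∀ ξ, prR n = some ξ → wtR ξ = some i ∧ rkR ξ < rkR n ∧ agR n = agR ξ + 1)
      (hl : ∀ q ∈ lsR n, Valid q.1)
      (hl' : ∀ q ∈ lsR n, rkR q.1 < rkR n ∧ q.2.1 ≤ rkR n ∧ (wtR q.1 = none → q.1 ≤ rkR n))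
      (hlen : (lsR n).length ≤ rkR n)
      (hsum : ((lsR n).map (fun q => |q.2.2|)).sum ≤ ((rkR n).factorial : ℤ))
      (hodd : Odd i → ∃ η h, lsR n = [(η, 0, ((rkR n).factorial : ℤ))] ∧ wtR η = some h ∧
        (prR n = none → h % 4 = 2 ∧ nn i ^ 2 < mm h) ∧ (∀ ξ, prR n = some ξ → h = 4 * cdR ξ)) :
      Valid n

/-- the type of top nodes -/
def TT : Type := {n : ℕ // Valid n}

noncomputable def rkT (τ : TT) : ℕ := rkR τ.1
noncomputable def wtT (τ : TT) : Option ℕ := wtR τ.1
noncomputable def agT (τ : TT) : ℕ := agR τ.1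
noncomputable def cdT (τ : TT) : ℕ := cdR τ.1

open Classical in
noncomputable def prT (τ : TT) : Option TT :=
  (prR τ.1).bind (fun ξ => if h : Valid ξ then some ⟨ξ, h⟩ else none)

open Classical in
/-- one coefficient -/
noncomputable def coT (r : ℕ) (q : ℕ × ℕ × ℤ) : TT × ℕ →₀ ℝ :=
  if h : Valid q.1 then Finsupp.single ((⟨q.1, h⟩ : TT), q.2.1) ((q.2.2 : ℝ) / (r.factorial : ℝ))
  else 0

noncomputable def bbT (τ : TT) : TT × ℕ →₀ ℝ := ((lsR τ.1).map (coT (rkR τ.1))).sum

end TreeCon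

end Pool.Agent.MP8c9cbf
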